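import Mathlib

/-!
# The infimum of the volume product over the interior points is attained
-/

set_option autoImplicit false

open MeasureTheory Set Filter Topology
open scoped ENNReal Pointwise Matrix

namespace Pool.Agent.Y195.MM

variable {n : ℕ}

/-- the polar body with respect to `z` -/
def plr (K : Set (Fin n → ℝ)) (z : Fin n → ℝ) : Set (Fin n → ℝ) := {y | ∀ x ∈ K, (x - z) ⬝ᵥ y ≤ 1}

/-- the polar bodies are lower semicontinuous in volume -/
theorem vol_le_of_tendsto {K : Set (Fin n → ℝ)} {z : Fin n → ℝ} {zs : ℕ → (Fin n → ℝ)}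
    (hz : Tendsto zs atTop (𝓝 z)) {b : ℝ≥0∞} {bs : ℕ → ℝ≥0∞} (hb : Tendsto bs atTop (𝓝 b))
    (h : ∀ j, volume (plr K (zs j)) ≤ bs j) : volume (plr K z) ≤ b := by
  have key : ∀ t : ℝ, 0 < t → t < 1 → volume (t • plr K z) ≤ b := by
    intro t ht ht1
    have hsub : t • plr K z ⊆ ⋃ N : ℕ, ⋂ j ∈ Ici N, plr K (zs j) := by
      rintro _ ⟨y, hy, rfl⟩
      have hlim : Tendsto (fun j => t * ((z - zs j) ⬝ᵥ y)) atTop (𝓝 0) := by
        have h1 : Tendsto (fun j => z - zs j) atTop (𝓝 (z - z)) := tendsto_const_nhds.sub hz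
        rw [sub_self] at h1
        have h2 : Continuous fun w : Fin n → ℝ => t * (w ⬝ᵥ y) := by
          unfold dotProduct
          fun_prop
        have h3 := (h2.tendsto 0).comp h1
        rw [zero_dotProduct, mul_zero] at h3
        exact h3
      have hev : ∀ᶠ j in atTop, t * ((z - zs j) ⬝ᵥ y) < 1 - t :=
        hlim.eventually (gt_mem_nhds (by linarith))
      obtain ⟨N, hN⟩ := eventually_atTop.1 hev
      refine mem_iUnion.2 ⟨N, ?_⟩
      simp only [mem_iInter]
      intro j hj x hx
      have h4 := hN j hj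
      have h5 := hy x hx
      show (x - zs j) ⬝ᵥ (t • y) ≤ 1
      have e : x - zs j = (x - z) + (z - zs j) := by abel
      rw [dotProduct_smul, smul_eq_mul, e, add_dotProduct, mul_add]
      nlinarith
    refine (measure_mono hsub).trans ?_
    rw [Monotone.measure_iUnion (fun N N' hNN' => biInter_mono (Ici_subset_Ici.2 hNN')
      fun _ _ => Subset.rfl)]
    refine iSup_le fun N => ?_
    refine ge_of_tendsto hb ?_
    filter_upwards [Ici_mem_atTop N] with j hj
    exact (measure_mono (biInter_subset_of_mem hj)).trans (h j)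
  have hlim : Tendsto (fun k : ℕ => ENNReal.ofReal ((1 - 1 / ((k : ℝ) + 2)) ^ n) *
      volume (plr K z)) atTop (𝓝 (1 * volume (plr K z))) := by
    refine ENNReal.Tendsto.mul_const ?_ (Or.inl one_ne_zero)
    have h1 : Tendsto (fun k : ℕ => (1 - 1 / ((k : ℝ) + 2)) ^ n) atTop (𝓝 ((1 - 0) ^ n)) := by
      refine (tendsto_const_nhds.sub ?_).pow n
      refine tendsto_const_nhds.div_atTop ?_
      exact tendsto_atTop_add_const_right _ _ tendsto_natCast_atTop_atTop
    have h2 := ENNReal.tendsto_ofReal h1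
    simpa using h2
  rw [one_mul] at hlim
  refine le_of_tendsto hlim (Eventually.of_forall fun k => ?_)
  have h0 : (0:ℝ) < (k:ℝ) + 2 := by positivity
  have h1 : (0:ℝ) < 1 - 1 / ((k : ℝ) + 2) := by
    rw [sub_pos, div_lt_one h0]
    linarith [Nat.cast_nonneg (α := ℝ) k]
  have h2 : 1 - 1 / ((k : ℝ) + 2) < 1 := by
    have : (0:ℝ) < 1 / ((k : ℝ) + 2) := by positivity
    linarith
  have h3 := key _ h1 h2
  rw [Measure.addHaar_smul] at h3
  rw [Module.finrank_fin_fun, abs_of_nonneg (by positivity)] at h3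
  exact h3

/-- polar bodies with respect to boundary points have infinite volume -/
theorem interior_of_finite {K : Set (Fin n → ℝ)} (hc : IsCompact K) (hv : Convex ℝ K)
    (hi : (interior K).Nonempty) {z : Fin n → ℝ} (h : volume (plr K z) < ⊤) :
    z ∈ interior K := by
  by_contra hz
  obtain ⟨f, hf⟩ := geometric_hahn_banach_open_point hv.interior isOpen_interior hz
  -- the vector of the functional
  set w : Fin n → ℝ := fun i => f (Pi.single i 1) with hw
  have hfw : ∀ x, f x = x ⬝ᵥ w := by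
    intro x
    have e : x = ∑ i, x i • (Pi.single i (1:ℝ) : Fin n → ℝ) := by
      funext j
      rw [Finset.sum_apply, Finset.sum_eq_single j]
      · simp
      · intro i _ hij
        simp [Pi.single_eq_of_ne (Ne.symm hij)]
      · intro hj; exact absurd (Finset.mem_univ j) hj
    conv_lhs => rw [e]
    rw [map_sum]
    unfold dotProduct
    refine Finset.sum_congr rfl fun i _ => ?_
    rw [map_smul, smul_eq_mul]
  obtain ⟨a, ha⟩ := hi
  have hw0 : w ≠ 0 := by
    intro h0
    have := hf a ha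
    rw [hfw, hfw, h0, dotProduct_zero, dotProduct_zero] at this
    exact lt_irrefl _ this
  have hK : ∀ x ∈ K, (x - z) ⬝ᵥ w ≤ 0 := by
    intro x hx
    have hcl : x ∈ closure (interior K) := by
      rw [hv.closure_interior_eq_closure_of_nonempty_interior ⟨a, ha⟩]
      exact subset_closure hx
    have h1 : closure (interior K) ⊆ {u | f u ≤ f z} :=
      closure_minimal (fun u hu => (hf u hu).le) (isClosed_le f.continuous continuous_const)
    have h2 : f x ≤ f z := h1 hcl
    rw [sub_dotProduct, ← hfw, ← hfw]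
    linarith
  -- a ball in the polar body
  obtain ⟨R, hR0, hR⟩ : ∃ R : ℝ, 0 < R ∧ ∀ x ∈ K, ‖x - z‖ ≤ R := by
    obtain ⟨R, hR⟩ := (hc.image (continuous_id.sub continuous_const : Continuous
      fun x => x - z)).isBounded.exists_norm_le
    exact ⟨max R 1, lt_max_of_lt_right one_pos, fun x hx =>
      (hR _ ⟨x, hx, rfl⟩).trans (le_max_left _ _)⟩
  have hn0 : 0 < n := by
    rcases Nat.eq_zero_or_pos n with h0 | h0
    · exfalso
      subst h0
      exact hw0 (Subsingleton.elim _ _)
    · exact h0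
  have hnR : (0:ℝ) < n * R := mul_pos (by exact_mod_cast hn0) hR0
  set r : ℝ := 1 / (n * R) with hr
  have hr0 : 0 < r := by positivity
  have hball : ∀ y : Fin n → ℝ, ‖y‖ < r → ∀ s : ℝ, 0 ≤ s → y + s • w ∈ plr K z := by
    intro y hy s hs x hx
    rw [dotProduct_add, dotProduct_smul, smul_eq_mul]
    have h1 := hK x hx
    have h2 : (x - z) ⬝ᵥ y ≤ 1 := by
      calc (x - z) ⬝ᵥ y ≤ ∑ i : Fin n, R * r := by
            unfold dotProduct
            refine Finset.sum_le_sum fun i _ => ?_
            refine (le_abs_self _).trans ?_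
            rw [abs_mul]
            have h3 : |(x - z) i| ≤ R := (norm_le_pi_norm (x - z) i).trans (hR x hx)
            have h4 : |y i| ≤ r := (norm_le_pi_norm y i).trans hy.le
            exact mul_le_mul h3 h4 (abs_nonneg _) hR0.le
        _ = 1 := by
            rw [Finset.sum_const, Finset.card_univ, Fintype.card_fin, nsmul_eq_mul, hr]
            field_simp
    nlinarith
  have hwn : 0 < ‖w‖ := norm_pos_iff.2 hw0
  set M : ℝ := 2 * r / ‖w‖ with hM
  have hM0 : 0 < M := by positivity
  have hsub : (⋃ k : ℕ, Metric.ball (((k:ℝ) * M) • w) r) ⊆ plr K z := by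
    refine iUnion_subset fun k u hu => ?_
    have h1 := hball (u - ((k:ℝ) * M) • w) (by rwa [← dist_eq_norm]) ((k:ℝ) * M) (by positivity)
    rwa [sub_add_cancel] at h1
  have hdisj : Pairwise (Function.onFun Disjoint fun k : ℕ => Metric.ball (((k:ℝ) * M) • w) r) := by
    intro j k hjk
    refine Metric.ball_disjoint_ball ?_
    rw [dist_eq_norm, ← sub_smul, norm_smul, ← sub_mul, norm_mul]
    have h1 : (1:ℝ) ≤ ‖(j:ℝ) - k‖ := by
      have h2 : ((j:ℤ) - k) ≠ 0 := by
        intro h3
        apply hjk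
        omega
      have h3 : (1:ℤ) ≤ |(j:ℤ) - k| := Int.one_le_abs h2
      rw [Real.norm_eq_abs]
      exact_mod_cast h3
    have h2 : ‖M‖ * ‖w‖ = 2 * r := by
      rw [Real.norm_eq_abs, abs_of_pos hM0, hM]
      field_simp
    rw [mul_assoc, h2]
    nlinarith
  have htop : volume (⋃ k : ℕ, Metric.ball (((k:ℝ) * M) • w) r) = ⊤ := by
    rw [measure_iUnion hdisj fun k => measurableSet_ball]
    have h1 : ∀ k : ℕ, volume (Metric.ball (((k:ℝ) * M) • w) r) =
        volume (Metric.ball (0 : Fin n → ℝ) r) := fun k =>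
      Measure.addHaar_ball_center volume _ r
    simp_rw [h1]
    exact ENNReal.tsum_const_eq_top_of_ne_zero (Metric.measure_ball_pos volume _ hr0).ne'
  have := measure_mono hsub (μ := volume)
  rw [htop] at this
  exact absurd h (not_lt.2 this)

/-- the infimum is attained -/
theorem attained {K : Set (Fin n → ℝ)} (hc : IsCompact K) (hv : Convex ℝ K)
    (hi : (interior K).Nonempty) {b : ℝ} 
    (h : ∀ ε : ℝ, 0 < ε → ∃ z ∈ interior K, volume (plr K z) ≤ ENNReal.ofReal (b + ε)) :
    ∃ z ∈ interior K, volume (plr K z) ≤ ENNReal.ofReal b := by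
  have h1 : ∀ j : ℕ, ∃ z ∈ interior K, volume (plr K z) ≤ ENNReal.ofReal (b + 1 / ((j:ℝ) + 1)) :=
    fun j => h _ (by positivity)
  choose zs hzs hzv using h1
  obtain ⟨z, -, φ, hφ, hlim⟩ := hc.tendsto_subseq fun j => interior_subset (hzs j)
  have hb : Tendsto (fun j => ENNReal.ofReal (b + 1 / (((φ j : ℕ):ℝ) + 1))) atTop
      (𝓝 (ENNReal.ofReal b)) := by
    have h2 : Tendsto (fun j : ℕ => b + 1 / (((φ j : ℕ):ℝ) + 1)) atTop (𝓝 (b + 0)) := by
      refine tendsto_const_nhds.add ?_
      exact (tendsto_one_div_add_atTop_nhds_zero_nat (𝕜 := ℝ)).comp hφ.tendsto_atTop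
    rw [add_zero] at h2
    exact ENNReal.tendsto_ofReal h2
  have h3 := vol_le_of_tendsto (K := K) hlim hb fun j => hzv (φ j)
  exact ⟨z, interior_of_finite hc hv hi (h3.trans_lt ENNReal.ofReal_lt_top), h3⟩

end Pool.Agent.Y195.MM
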