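import Pool.Agent.Y195.MM.Att
import Pool.Agent.Y505.MH.Main

/-!
# Minimizers of the volume product are simplices
-/

set_option autoImplicit false

open MeasureTheory Set Filter Topology
open scoped ENNReal Pointwise Matrix

namespace Pool.Agent.Y195.MM

variable {n : ℕ}

/-- Mahler's constant -/
noncomputable def cn (n : ℕ) : ℝ := ((n : ℝ) + 1) ^ (n + 1) / (n.factorial : ℝ) ^ 2

/-- coordinates of the Euclidean space -/
noncomputable def ph (n : ℕ) : EuclideanSpace ℝ (Fin n) ≃L[ℝ] (Fin n → ℝ) :=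
  PiLp.continuousLinearEquiv 2 ℝ fun _ : Fin n => ℝ

theorem ph_mp (n : ℕ) : MeasurePreserving (ph n) (volume : Measure (EuclideanSpace ℝ (Fin n)))
    (volume : Measure (Fin n → ℝ)) := PiLp.volume_preserving_ofLp (Fin n)

theorem vol_ph (A : Set (EuclideanSpace ℝ (Fin n))) : volume (ph n '' A) = volume A := by
  have h : MeasurePreserving ((ph n).toHomeomorph.toMeasurableEquiv)
      (volume : Measure (EuclideanSpace ℝ (Fin n))) (volume : Measure (Fin n → ℝ)) := ph_mp n
  have h2 := h.measure_preimage_equiv (ph n '' A)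
  rw [← h2]
  congr 1
  exact Set.preimage_image_eq A (ph n).injective

theorem inner_eq (x y : EuclideanSpace ℝ (Fin n)) : inner ℝ x y = ph n x ⬝ᵥ ph n y := by
  rw [PiLp.inner_apply]
  unfold dotProduct
  refine Finset.sum_congr rfl fun i _ => ?_
  show (y i) * (starRingEnd ℝ) (x i) = x i * y i
  rw [mul_comm]
  rfl

/-- the polar body of the Euclidean space -/
def polE (K : Set (EuclideanSpace ℝ (Fin n))) (z : EuclideanSpace ℝ (Fin n)) :
    Set (EuclideanSpace ℝ (Fin n)) := {y | ∀ x ∈ K, inner ℝ (x - z) y ≤ (1 : ℝ)}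

theorem pol_eq (K : Set (EuclideanSpace ℝ (Fin n))) (z : EuclideanSpace ℝ (Fin n)) :
    plr (ph n '' K) (ph n z) = ph n '' polE K z := by
  ext y
  constructor
  · intro hy
    refine ⟨(ph n).symm y, ?_, (ph n).apply_symm_apply y⟩
    intro x hx
    rw [inner_eq, (ph n).apply_symm_apply, map_sub]
    exact hy (ph n x) ⟨x, hx, rfl⟩
  · rintro ⟨y, hy, rfl⟩
    rintro _ ⟨x, hx, rfl⟩
    rw [← map_sub, ← inner_eq]
    exact hy x hx

theorem image_int (K : Set (EuclideanSpace ℝ (Fin n))) : ph n '' interior K = interior (ph n '' K) :=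
  (ph n).toHomeomorph.image_interior K

/-- bodies whose volume product is at most the one of simplices are simplices -/
theorem simplex_of_le {K : Set (Fin n → ℝ)} (hc : IsCompact K) (hv : Convex ℝ K)
    (hi : (interior K).Nonempty)
    (h : ∀ ε : ℝ, 0 < ε → ∃ z ∈ interior K,
      volume K * volume (plr K z) ≤ ENNReal.ofReal (cn n + ε)) :
    ∃ p : Fin (n + 1) → (Fin n → ℝ), AffineIndependent ℝ p ∧ K = convexHull ℝ (range p) := by
  have hK0 := Y505.MH.vol_pos' hc hi
  have hKv : volume K = ENNReal.ofReal (volume.real K) := by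
    rw [Measure.real, ENNReal.ofReal_toReal hc.measure_lt_top.ne]
  have hcn : 0 ≤ cn n := by unfold cn; positivity
  obtain ⟨z, hz, hzv⟩ := attained hc hv hi (b := cn n / volume.real K) (by
    intro ε hε
    obtain ⟨z, hz, h1⟩ := h (ε * volume.real K) (by positivity)
    refine ⟨z, hz, ?_⟩
    have h2 : ENNReal.ofReal (cn n + ε * volume.real K) =
        ENNReal.ofReal (volume.real K) * ENNReal.ofReal (cn n / volume.real K + ε) := by
      rw [← ENNReal.ofReal_mul hK0.le]
      congr 1
      field_simp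
    rw [h2, hKv] at h1
    exact (ENNReal.mul_le_mul_iff_right (by
      rw [ENNReal.ofReal_ne_zero_iff]; exact hK0) ENNReal.ofReal_ne_top).1 h1)
  refine (TH537.EQ.mahler hc hv hz).2 ?_
  have h3 : volume.real (plr K z) ≤ cn n / volume.real K :=
    ENNReal.toReal_le_of_le_ofReal (by positivity) hzv
  rw [le_div_iff₀ hK0, mul_comm] at h3
  exact h3

/-- simplices with the constant -/
theorem exists_simplex (n : ℕ) : ∃ K : Set (Fin n → ℝ), IsCompact K ∧ Convex ℝ K ∧
    (interior K).Nonempty ∧ ∃ z ∈ interior K,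
      volume K * volume (plr K z) ≤ ENNReal.ofReal (cn n) := by
  obtain ⟨b⟩ := AffineBasis.exists_affineBasis_of_finiteDimensional (k := ℝ)
    (P := Fin n → ℝ) (ι := Fin (n + 1)) (by simp)
  set K : Set (Fin n → ℝ) := convexHull ℝ (range b) with hK
  have hc : IsCompact K := (Set.finite_range b).isCompact_convexHull ℝ
  have hv : Convex ℝ K := convex_convexHull ℝ _
  have hi : (interior K).Nonempty := by
    rw [hK, interior_convexHull_nonempty_iff_affineSpan_eq_top]
    exact b.tot
  have hK0 := Y505.MH.vol_pos' hc hi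
  obtain ⟨z, hint⟩ : ∃ z : Fin n → ℝ, ∫ x in K, x = volume.real K • z :=
    ⟨(volume.real K)⁻¹ • ∫ x in K, x, by rw [smul_smul, mul_inv_cancel₀ hK0.ne', one_smul]⟩
  have hz := Y505.MH.centroid_mem hc hv hi hint
  refine ⟨K, hc, hv, hi, z, hz, ?_⟩
  have h1 := (Y505.MH.eq_iff hc hv hz).2 ⟨⟨b, b.ind, hK⟩, hint⟩
  have h2 : volume (plr K z) ≠ ⊤ := by
    intro htop
    have h3 : volume.real (TH537.EQ.plr K z) = 0 := by
      show (volume (plr K z)).toReal = 0
      rw [htop]
      rfl
    rw [h3, mul_zero] at h1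
    have : (0:ℝ) < ((n : ℝ) + 1) ^ (n + 1) / (n.factorial : ℝ) ^ 2 := by positivity
    linarith
  have h4 : volume K * volume (plr K z) =
      ENNReal.ofReal (volume.real K * volume.real (plr K z)) := by
    rw [ENNReal.ofReal_mul measureReal_nonneg, Measure.real, Measure.real,
      ENNReal.ofReal_toReal hc.measure_lt_top.ne, ENNReal.ofReal_toReal h2]
  rw [h4]
  exact ENNReal.ofReal_le_ofReal h1.le

theorem main (K : Set (EuclideanSpace ℝ (Fin n))) (hv : Convex ℝ K) (hc : IsCompact K)
    (hi : (interior K).Nonempty)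
    (h : ∀ L : Set (EuclideanSpace ℝ (Fin n)), Convex ℝ L → IsCompact L → (interior L).Nonempty →
      volume K * (⨅ z ∈ interior K, volume (polE K z)) ≤
      volume L * (⨅ z ∈ interior L, volume (polE L z))) :
    ∃ p : Fin (n + 1) → EuclideanSpace ℝ (Fin n), AffineIndependent ℝ p ∧
      K = convexHull ℝ (range p) := by
  obtain ⟨L', hLc, hLv, hLi, z0, hz0, hval⟩ := exists_simplex n
  have hLL : ph n '' ((ph n).symm '' L') = L' := by
    rw [image_image]
    simp
  have hz0' : (ph n).symm z0 ∈ interior ((ph n).symm '' L') := by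
    have h1 : (ph n).symm.toHomeomorph '' interior L' =
        interior ((ph n).symm.toHomeomorph '' L') := (ph n).symm.toHomeomorph.image_interior L'
    have h2 : (ph n).symm z0 ∈ (ph n).symm.toHomeomorph '' interior L' := ⟨z0, hz0, rfl⟩
    rw [h1] at h2
    exact h2
  have h0 := h ((ph n).symm '' L') (hLv.linear_image (ph n).symm.toLinearMap)
    (hLc.image (ph n).symm.continuous) ⟨_, hz0'⟩
  have h1 : volume ((ph n).symm '' L') * (⨅ z ∈ interior ((ph n).symm '' L'),
      volume (polE ((ph n).symm '' L') z)) ≤ ENNReal.ofReal (cn n) := by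
    refine le_trans (mul_le_mul_right (iInf₂_le _ hz0') _) ?_
    rw [← vol_ph, ← vol_ph (polE _ _), ← pol_eq, hLL, (ph n).apply_symm_apply]
    exact hval
  have h2 := h0.trans h1
  have hc' : IsCompact (ph n '' K) := hc.image (ph n).continuous
  have hv' : Convex ℝ (ph n '' K) := hv.linear_image (ph n).toLinearMap
  have hi' : (interior (ph n '' K)).Nonempty := by
    rw [← image_int]
    exact hi.image _
  have hKpos : volume K ≠ 0 := (Measure.measure_pos_of_nonempty_interior _ hi).ne'
  have hKtop : volume K ≠ ⊤ := hc.measure_lt_top.ne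
  obtain ⟨p, hp, hKp⟩ := simplex_of_le hc' hv' hi' (by
    intro ε hε
    have hcn : 0 ≤ cn n := by unfold cn; positivity
    have h3 : volume K * (⨅ z ∈ interior K, volume (polE K z)) < ENNReal.ofReal (cn n + ε) :=
      h2.trans_lt ((ENNReal.ofReal_lt_ofReal_iff (by positivity)).2 (by linarith))
    have h4 : (⨅ z ∈ interior K, volume (polE K z)) < ENNReal.ofReal (cn n + ε) / volume K := by
      rw [ENNReal.lt_div_iff_mul_lt (Or.inl hKpos) (Or.inl hKtop), mul_comm]
      exact h3
    simp only [iInf_lt_iff] at h4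
    obtain ⟨z, hz, h5⟩ := h4
    rw [ENNReal.lt_div_iff_mul_lt (Or.inl hKpos) (Or.inl hKtop), mul_comm] at h5
    refine ⟨ph n z, ?_, ?_⟩
    · rw [← image_int]
      exact ⟨z, hz, rfl⟩
    · rw [pol_eq, vol_ph, vol_ph]
      exact h5.le)
  refine ⟨fun i => (ph n).symm (p i), ?_, ?_⟩
  · exact hp.map' ((ph n).symm.toLinearEquiv.toAffineEquiv : (Fin n → ℝ) ≃ᵃ[ℝ] _).toAffineMap
      ((ph n).symm.toLinearEquiv.toAffineEquiv : (Fin n → ℝ) ≃ᵃ[ℝ] _).injective
  · have h3 : K = (ph n).symm '' (ph n '' K) := by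
      rw [image_image]
      simp
    rw [h3, hKp]
    have h4 : (ph n).symm '' convexHull ℝ (range p) = convexHull ℝ ((ph n).symm '' range p) :=
      (ph n).symm.toLinearMap.image_convexHull (range p)
    rw [h4, ← range_comp]
    rfl

end Pool.Agent.Y195.MM
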